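import Pool.Agent.J4H84.TH.Final

/-!
# A tame Hopf algebra whose Balmer spectrum is not the projective line (MP_868e2f_al)

Over every algebraically closed field `k` of characteristic different from `2` there is a
finite-dimensional Hopf algebra `A` (of dimension at most `32`) of tame representation type such
that the Balmer spectrum of its stable module category is not irreducible; in particular it is not
homeomorphic to the projective line.

`A` is generated by `x, y, g, h` with the relations: `g`, `h` are commuting involutions,
`g x = - x g`, `h x = - x h`, `g y = y g`, `h y = - y h`, `x ^ 2 = y ^ 2 = 0`,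
`(x y - y x) ^ 2 = 0`; `Δ x = x ⊗ 1 + g ⊗ x`, `Δ y = y ⊗ 1 + h ⊗ y`, `g`, `h` are group-like.
-/

namespace Pool.Agent.Results.MP_868e2f_al.ReducibleBalmerSpectrum

open Pool.Agent.J4H84.TH

universe u

theorem result (k : Type u) [Field k] [IsAlgClosed k] (h2 : (2 : k) ≠ 0) :
    ∃ (A : Type u) (_ : Ring A) (_ : HopfAlgebra k A),
      FiniteDimensional k A ∧ Module.finrank k A ≤ 32 ∧ IsTame k A ∧
      ¬ PreirreducibleSpace (Spc k A) ∧ IsEmpty (Spc k A ≃ₜ P1 k) :=
  ⟨H k, inferInstance, inferInstance, inferInstance, finrank_H_le k, isTame_H k h2,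
    not_preirreducible k h2, isEmpty_homeo k h2⟩

end Pool.Agent.Results.MP_868e2f_al.ReducibleBalmerSpectrum
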